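import Mathlib

/-!
# MP_03ede5_co : bounded-delay schedules for regular three-dimensional train networks

A finite table `f : {+,-} × (ℤ/18)² → ℤ/18` (found by a SAT solver) gives universal phases for
train length `2`: a line in direction of axis `i` with sign `s` is assigned the phase
`f s p_{i+1} p_{i+2} + 6 i`, and at every lattice point the times of lines of different axes differ
by at least `2` modulo `18`. Blowing the table up by an odd factor `K = 2ℓ + 1` (and centring)
gives phases modulo `18 K` which work for train length `ℓ`. Collinear tracks sharing an endpoint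
are treated separately, by adding a multiple `c * 18 K`, `c ∈ {0,1,2}`, to the delays.
-/

namespace Pool.Agent.Results.MP_03ede5_co.BoundedDelay

open Set

/-- A train line in `ℝ^d`: a track (the segment from the departure point to the arrival point),
a train length and a speed. -/
structure TrainLine (d : ℕ) where
  /-- departure point -/
  dep : EuclideanSpace ℝ (Fin d)
  /-- arrival point -/
  arr : EuclideanSpace ℝ (Fin d)
  /-- train length -/
  len : ℝ
  /-- speed -/
  speed : ℝ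
  dep_ne_arr : dep ≠ arr
  len_pos : 0 < len
  speed_pos : 0 < speed

/-- The track of a train line. -/
def TrainLine.track {d : ℕ} (L : TrainLine d) : Set (EuclideanSpace ℝ (Fin d)) :=
  segment ℝ L.dep L.arr

/-- A train network: the tracks of distinct lines do not overlap, i.e. they have at most one
point in common (they may cross, and they may share an endpoint). -/
def IsNetwork {d : ℕ} (N : Set (TrainLine d)) : Prop :=
  ∀ L ∈ N, ∀ L' ∈ N, L ≠ L' → (L.track ∩ L'.track).Subsingleton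

/-- A network is regular with train length `ℓ` if all speeds are `1`, all train lengths are `ℓ`,
all tracks are parallel to a coordinate axis and all departure and arrival points are integral. -/
def IsRegular {d : ℕ} (N : Set (TrainLine d)) (ℓ : ℕ) : Prop :=
  ∀ L ∈ N, L.speed = 1 ∧ L.len = ℓ ∧ (∃ i, ∀ j, j ≠ i → L.dep j = L.arr j) ∧
    (∀ j, ∃ n : ℤ, L.dep j = n) ∧ (∀ j, ∃ n : ℤ, L.arr j = n)

/-- The open time interval during which the train of line `L`, started with delay `t`, occupies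
the point `p` of its track. -/
def TrainLine.occupied {d : ℕ} (L : TrainLine d) (t : ℝ) (p : EuclideanSpace ℝ (Fin d)) : Set ℝ :=
  Set.Ioo (t + dist L.dep p / L.speed) (t + dist L.dep p / L.speed + L.len / L.speed)

/-- The delays `t` are collision-free on `N`: at every common point of the tracks of two
distinct lines, the occupation intervals are disjoint. -/
def CollisionFree {d : ℕ} (N : Set (TrainLine d)) (t : TrainLine d → ℝ) : Prop :=
  ∀ L ∈ N, ∀ L' ∈ N, L ≠ L' → ∀ p ∈ L.track ∩ L'.track,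
    Disjoint (L.occupied (t L) p) (L'.occupied (t L') p)

/-! ### The table -/

/-- The table, written in base `32`. -/
def table : ℕ :=
  0x2a0ee5a9620ba30288225aa0163509514c750c91005cf5a8ae3b12a1882e2c0600b14f31d0750c8133e0f8058d4912a3a230181a00c2283b1814260d33dc35440723cc5582226923008928591a83a94160dc57460150d85715072a968098708b8228a9ec3a1d18144112d4541dcb52c413a8648802e7c02c6a12a29841716030058b515c762543099f08c02c6a9e63a0ea1900d0061141d8922547446031aa20391e62b0284c1a67b84942c8d41d4b0444d246010a86c2b8a83a82c1b8ae8c1c11454f61d0552d0130d911c22e4c16c5b0e8280e21898d7360f81d032148741e116b9aa5c220390a4088e84c0031440733d4962d0983cc16b0706a0f04906c392303820103e0951d87524c70060379a307a92c599e8398201894783dcb6040181cc510d494a0ec6916208230191a25a9874140710c43845c982d8b190a43a0f08b1ae6c2303a085204474260d7354b844074b1684c1e608062880e67a88361c9181c0d60e0d41e093a926380301c0207c12a3b0cf41cc100c4f3460f5258b0c0e62886a4a8f07b96c0801180c8d12d4941d8d22c41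

/-- The universal phases for train length `2`. -/
def f (s y z : ℕ) : ℕ := table / 32 ^ (324 * s + 18 * y + z) % 32

/-- `+1` for `0` and `-1` for `1`. -/
def sg (s : ℕ) : ℤ := 1 - 2 * (s : ℤ)

/-- The check for one crossing. -/
def ok (s t x y z : ℕ) : Bool :=
  let E : ℤ := ((f s y z : ℤ) + sg s * x - f t z x - 6 - sg t * y) % 18
  decide (2 ≤ E) && decide (E ≤ 16)

set_option maxRecDepth 100000 in
lemma table_ok : ((List.range 2).all fun s => (List.range 2).all fun t =>
    (List.range 18).all fun x => (List.range 18).all fun y => (List.range 18).all fun z =>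
      ok s t x y z) = true := by
  decide +kernel

lemma table_sep {s t x y z : ℕ} (hs : s < 2) (ht : t < 2) (hx : x < 18) (hy : y < 18)
    (hz : z < 18) :
    2 ≤ ((f s y z : ℤ) + sg s * x - f t z x - 6 - sg t * y) % 18 ∧
      ((f s y z : ℤ) + sg s * x - f t z x - 6 - sg t * y) % 18 ≤ 16 := by
  have h := table_ok
  simp only [List.all_eq_true, List.mem_range] at h
  have h1 := h s hs t ht x hx y hy z hz
  simp only [ok, Bool.and_eq_true, decide_eq_true_eq] at h1
  exact h1

/-! ### Blowing up the table -/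

/-- The residue modulo `18` of the block of length `2ℓ + 1` containing `x`. -/
def res (ℓ : ℕ) (x : ℤ) : ℕ := ((x / (2 * ℓ + 1)) % 18).toNat

/-- The universal phases for train length `ℓ`. -/
def F (ℓ s : ℕ) (y z : ℤ) : ℤ := (2 * ℓ + 1) * f s (res ℓ y) (res ℓ z) - sg s * ℓ

lemma res_lt (ℓ : ℕ) (x : ℤ) : res ℓ x < 18 := by
  unfold res; omega

lemma res_cast (ℓ : ℕ) (x : ℤ) : (res ℓ x : ℤ) = (x / (2 * ℓ + 1)) % 18 := by
  unfold res; omega

lemma sg_cases {s : ℕ} (hs : s < 2) : sg s = 1 ∨ sg s = -1 := by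
  interval_cases s <;> simp [sg]

lemma F_sep (ℓ : ℕ) {s t : ℕ} (hs : s < 2) (ht : t < 2) (x y z n : ℤ) :
    (ℓ : ℤ) ≤ |F ℓ s y z + sg s * x - F ℓ t z x - 6 * (2 * ℓ + 1) - sg t * y
      + 18 * (2 * ℓ + 1) * n| := by
  set K : ℤ := 2 * ℓ + 1 with hK
  have hKpos : 0 < K := by omega
  have hx : x = K * (x / K) + x % K := (Int.mul_ediv_add_emod x K).symm
  have hy : y = K * (y / K) + y % K := (Int.mul_ediv_add_emod y K).symm
  have hx1 := Int.emod_nonneg x hKpos.ne'
  have hx2 := Int.emod_lt_of_pos x hKpos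
  have hy1 := Int.emod_nonneg y hKpos.ne'
  have hy2 := Int.emod_lt_of_pos y hKpos
  obtain ⟨h1, h2⟩ := table_sep hs ht (res_lt ℓ x) (res_lt ℓ y) (res_lt ℓ z)
  rw [res_cast ℓ x, res_cast ℓ y, ← hK] at h1 h2
  set A : ℤ := (f s (res ℓ y) (res ℓ z) : ℤ) with hA
  set B : ℤ := (f t (res ℓ z) (res ℓ x) : ℤ) with hB
  set X := x / K
  set Y := y / K
  set x' := x % K
  set y' := y % K
  have hE : (2 ≤ A + sg s * X - B - 6 - sg t * Y + 18 * n) ∨
      (A + sg s * X - B - 6 - sg t * Y + 18 * n ≤ -2) := by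
    rcases sg_cases hs with h | h <;> rcases sg_cases ht with h' | h' <;>
      simp only [h, h'] at h1 h2 ⊢ <;> omega
  have hexpr : F ℓ s y z + sg s * x - F ℓ t z x - 6 * K - sg t * y + 18 * K * n =
      K * (A + sg s * X - B - 6 - sg t * Y + 18 * n) + (sg s * (x' - ℓ) - sg t * (y' - ℓ)) := by
    simp only [F, ← hK, ← hA, ← hB]
    conv_lhs => rw [hx, hy]
    ring
  rw [hexpr]
  have hpert : |sg s * (x' - ℓ) - sg t * (y' - ℓ)| ≤ 2 * ℓ := by
    rw [abs_le]
    rcases sg_cases hs with h | h <;> rcases sg_cases ht with h' | h' <;>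
      simp only [h, h'] <;> constructor <;> omega
  rw [abs_le] at hpert
  rcases hE with hE | hE
  · refine le_trans ?_ (le_abs_self _)
    nlinarith [hpert.1]
  · refine le_trans ?_ (neg_le_abs _)
    nlinarith [hpert.2]

/-- The phase of a line of axis `i` and sign `s` through the lattice point `p`. -/
def Phi (ℓ : ℕ) (i : Fin 3) (s : ℕ) (p : Fin 3 → ℤ) : ℤ :=
  F ℓ s (p (i + 1)) (p (i + 2)) + 6 * (2 * ℓ + 1) * (i.val : ℤ)

lemma Phi_sep (ℓ : ℕ) {s t : ℕ} (hs : s < 2) (ht : t < 2) {i j : Fin 3} (hij : i ≠ j)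
    (p : Fin 3 → ℤ) (n : ℤ) :
    (ℓ : ℤ) ≤ |(Phi ℓ i s p + sg s * p i) - (Phi ℓ j t p + sg t * p j)
      + 18 * (2 * ℓ + 1) * n| := by
  have e1 : (0 : Fin 3) + 1 = 1 := rfl
  have e2 : (0 : Fin 3) + 2 = 2 := rfl
  have e3 : (1 : Fin 3) + 1 = 2 := rfl
  have e4 : (1 : Fin 3) + 2 = 0 := rfl
  have e5 : (2 : Fin 3) + 1 = 0 := rfl
  have e6 : (2 : Fin 3) + 2 = 1 := rfl
  have v0 : ((0 : Fin 3).val : ℤ) = 0 := rfl
  have v1 : ((1 : Fin 3).val : ℤ) = 1 := rfl
  have v2 : ((2 : Fin 3).val : ℤ) = 2 := rfl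
  have key01 := F_sep ℓ hs ht (p 0) (p 1) (p 2) n
  have key12 := F_sep ℓ hs ht (p 1) (p 2) (p 0) n
  have key20 := F_sep ℓ hs ht (p 2) (p 0) (p 1) (n + 1)
  have key10 := F_sep ℓ ht hs (p 0) (p 1) (p 2) (-n)
  have key21 := F_sep ℓ ht hs (p 1) (p 2) (p 0) (-n)
  have key02 := F_sep ℓ ht hs (p 2) (p 0) (p 1) (-n + 1)
  fin_cases i <;> fin_cases j <;> simp only [Fin.zero_eta, Fin.mk_one, Fin.reduceFinMk, ne_eq,
    not_true_eq_false] at hij ⊢ <;>
    simp only [Phi, e1, e2, e3, e4, e5, e6, v0, v1, v2]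
  · refine key01.trans_eq (congrArg _ ?_); ring
  · rw [← abs_neg]
    refine key02.trans_eq (congrArg _ ?_); ring
  · rw [← abs_neg]
    refine key10.trans_eq (congrArg _ ?_); ring
  · refine key12.trans_eq (congrArg _ ?_); ring
  · refine key20.trans_eq (congrArg _ ?_); ring
  · rw [← abs_neg]
    refine key21.trans_eq (congrArg _ ?_); ring

/-! ### A greedy colouring lemma -/

/-- If every vertex has at most one neighbour on each of its two sides, and every colour of a
neighbour excludes at most one of three colours, then a conflict-free colouring exists. -/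
lemma exists_coloring {V : Type*} (bad : V → Fin 3 → V → Fin 3 → Prop)
    (adj : V → V → Bool → Prop)
    (hsymm : ∀ v c u d, bad v c u d → bad u d v c)
    (hadj : ∀ v c u d, bad v c u d → ∃ b, adj v u b)
    (huniq : ∀ v b u u', adj v u b → adj v u' b → u = u')
    (hone : ∀ v u d c c', bad v c u d → bad v c' u d → c = c') :
    ∃ col : V → Fin 3, ∀ v u, v ≠ u → ¬ bad v (col v) u (col u) := by
  classical
  let r : V → V → Prop := WellOrderingRel
  have hwf : WellFounded r := WellOrderingRel.isWellOrder.wf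
  let step : ∀ v : V, (∀ u, r u v → Fin 3) → Fin 3 := fun v c =>
    if h : ∃ k : Fin 3, ∀ u (hu : r u v), ¬ bad v k u (c u hu) then h.choose else 0
  let col : V → Fin 3 := hwf.fix step
  have hcol : ∀ v, col v = step v (fun u _ => col u) := fun v => hwf.fix_eq step v
  have hgood : ∀ v u, r u v → ¬ bad v (col v) u (col u) := by
    intro v
    have hex : ∃ k : Fin 3, ∀ u (_ : r u v), ¬ bad v k u (col u) := by
      by_contra hcon
      push Not at hcon
      choose w hw1 hw2 using hcon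
      choose b hb using fun k => hadj _ _ _ _ (hw2 k)
      obtain ⟨k, k', hkk, hbb⟩ : ∃ k k' : Fin 3, k ≠ k' ∧ b k = b k' := by
        obtain ⟨k, k', h1, h2⟩ := Fintype.exists_ne_map_eq_of_card_lt b (by simp)
        exact ⟨k, k', h1, h2⟩
      have h1 := hb k
      have h2 := hb k'
      rw [← hbb] at h2
      have hu := huniq _ _ _ _ h1 h2
      have h3 := hw2 k
      rw [hu] at h3
      exact hkk (hone _ _ _ _ _ h3 (hw2 k'))
    rw [hcol v]
    simp only [step]
    rw [dif_pos hex]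
    exact hex.choose_spec
  refine ⟨col, fun v u hvu hbad => ?_⟩
  rcases trichotomous_of r v u with h | h | h
  · exact hgood u v h (hsymm _ _ _ _ hbad)
  · exact hvu h
  · exact hgood v u h hbad

/-! ### Geometry of regular lines -/

/-- Integral data of a regular line. -/
structure Data (L : TrainLine 3) (ℓ : ℕ) where
  /-- the axis -/
  i : Fin 3
  /-- departure point -/
  a : Fin 3 → ℤ
  /-- arrival point -/
  b : Fin 3 → ℤ
  ha : ∀ j, L.dep j = a j
  hb : ∀ j, L.arr j = b j
  hab : ∀ j, j ≠ i → a j = b j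
  hne : a i ≠ b i
  speed_eq : L.speed = 1
  len_eq : L.len = ℓ

lemma exists_data {N : Set (TrainLine 3)} {ℓ : ℕ} (hN : IsRegular N ℓ) {L : TrainLine 3}
    (hL : L ∈ N) : Nonempty (Data L ℓ) := by
  obtain ⟨h1, h2, ⟨i, hi⟩, h4, h5⟩ := hN L hL
  choose a ha using h4
  choose b hb using h5
  have hab : ∀ j, j ≠ i → a j = b j := by
    intro j hj
    have := hi j hj
    rw [ha, hb] at this
    exact Int.cast_injective this
  refine ⟨⟨i, a, b, ha, hb, hab, ?_, h1, h2⟩⟩
  intro hEq
  apply L.dep_ne_arr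
  ext j
  by_cases hj : j = i
  · subst hj; rw [ha, hb, hEq]
  · exact hi j hj

namespace Data

variable {L : TrainLine 3} {ℓ : ℕ} (D : Data L ℓ)

/-- The sign of the direction of travel, `0` for `+` and `1` for `-`. -/
noncomputable def s : ℕ := if D.a D.i < D.b D.i then 0 else 1

lemma s_lt : D.s < 2 := by unfold s; split_ifs <;> norm_num

/-- The lower end of the track on its axis. -/
def lo : ℤ := min (D.a D.i) (D.b D.i)

/-- The upper end of the track on its axis. -/
def hi : ℤ := max (D.a D.i) (D.b D.i)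

lemma lo_lt_hi : D.lo < D.hi := by
  have := D.hne
  unfold lo hi
  omega

lemma mem_track (p : EuclideanSpace ℝ (Fin 3)) :
    p ∈ L.track ↔ (∀ j, j ≠ D.i → p j = D.a j) ∧ (D.lo : ℝ) ≤ p D.i ∧ p D.i ≤ D.hi := by
  unfold TrainLine.track
  constructor
  · rintro ⟨α, β, hα, hβ, hαβ, rfl⟩
    refine ⟨?_, ?_, ?_⟩
    · intro j hj
      simp only [PiLp.add_apply, PiLp.smul_apply, smul_eq_mul, D.ha, D.hb, ← D.hab j hj]
      rw [← add_mul, hαβ, one_mul]
    · simp only [PiLp.add_apply, PiLp.smul_apply, smul_eq_mul, D.ha, D.hb, lo]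
      push_cast
      have h1 : min (D.a D.i : ℝ) (D.b D.i) ≤ D.a D.i := min_le_left _ _
      have h2 : min (D.a D.i : ℝ) (D.b D.i) ≤ D.b D.i := min_le_right _ _
      calc min (D.a D.i : ℝ) (D.b D.i)
          = α * min (D.a D.i : ℝ) (D.b D.i) + β * min (D.a D.i : ℝ) (D.b D.i) := by
            rw [← add_mul, hαβ, one_mul]
        _ ≤ _ := add_le_add (mul_le_mul_of_nonneg_left h1 hα) (mul_le_mul_of_nonneg_left h2 hβ)
    · simp only [PiLp.add_apply, PiLp.smul_apply, smul_eq_mul, D.ha, D.hb, hi]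
      push_cast
      have h1 : (D.a D.i : ℝ) ≤ max (D.a D.i : ℝ) (D.b D.i) := le_max_left _ _
      have h2 : (D.b D.i : ℝ) ≤ max (D.a D.i : ℝ) (D.b D.i) := le_max_right _ _
      calc _ ≤ α * max (D.a D.i : ℝ) (D.b D.i) + β * max (D.a D.i : ℝ) (D.b D.i) :=
            add_le_add (mul_le_mul_of_nonneg_left h1 hα) (mul_le_mul_of_nonneg_left h2 hβ)
        _ = _ := by rw [← add_mul, hαβ, one_mul]
  · rintro ⟨h1, h2, h3⟩
    have hne : (D.b D.i : ℝ) - D.a D.i ≠ 0 := by
      have := D.hne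
      exact sub_ne_zero.mpr (fun h => this (by exact_mod_cast h.symm))
    set β : ℝ := (p D.i - D.a D.i) / (D.b D.i - D.a D.i) with hβ
    have hβmul : β * ((D.b D.i : ℝ) - D.a D.i) = p D.i - D.a D.i := by
      rw [hβ]; field_simp
    have hβ0 : 0 ≤ β ∧ β ≤ 1 := by
      unfold lo at h2
      unfold hi at h3
      push_cast at h2 h3
      rcases lt_or_gt_of_ne hne with h | h
      · have hle : (D.b D.i : ℝ) ≤ D.a D.i := by linarith
        rw [min_eq_right hle] at h2
        rw [max_eq_left hle] at h3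
        constructor
        · rw [hβ]; exact div_nonneg_of_nonpos (by linarith) h.le
        · rw [hβ, div_le_one_of_neg h]; linarith
      · have hle : (D.a D.i : ℝ) ≤ D.b D.i := by linarith
        rw [min_eq_left hle] at h2
        rw [max_eq_right hle] at h3
        constructor
        · rw [hβ]; exact div_nonneg (by linarith) h.le
        · rw [hβ, div_le_one h]; linarith
    refine ⟨1 - β, β, by linarith [hβ0.2], hβ0.1, by ring, ?_⟩
    ext j
    simp only [PiLp.add_apply, PiLp.smul_apply, smul_eq_mul, D.ha, D.hb]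
    by_cases hj : j = D.i
    · subst hj; linarith
    · rw [h1 j hj, ← D.hab j hj]; ring

lemma dist_dep {p : EuclideanSpace ℝ (Fin 3)} (hp : p ∈ L.track) :
    dist L.dep p = sg D.s * (p D.i - D.a D.i) := by
  obtain ⟨h1, h2, h3⟩ := (D.mem_track p).1 hp
  rw [EuclideanSpace.dist_eq, Finset.sum_eq_single D.i]
  · rw [Real.sqrt_sq dist_nonneg, D.ha, Real.dist_eq]
    unfold lo at h2
    unfold hi at h3
    push_cast at h2 h3
    unfold s
    split_ifs with h
    · have hle : (D.a D.i : ℝ) ≤ D.b D.i := by exact_mod_cast h.le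
      rw [min_eq_left hle] at h2
      rw [abs_sub_comm, abs_of_nonneg (by linarith)]
      simp [sg]
    · have hle : (D.b D.i : ℝ) ≤ D.a D.i := by exact_mod_cast (not_lt.1 h)
      rw [max_eq_left hle] at h3
      rw [abs_of_nonneg (by linarith)]
      simp [sg]
  · intro j _ hj
    rw [D.ha, h1 j hj]; simp
  · simp

/-- The base delay. -/
noncomputable def t0 : ℤ := (Phi ℓ D.i D.s D.a + sg D.s * D.a D.i) % (18 * (2 * ℓ + 1))

lemma t0_nonneg : 0 ≤ D.t0 := Int.emod_nonneg _ (by positivity)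

lemma t0_lt : D.t0 < 18 * (2 * ℓ + 1) := Int.emod_lt_of_pos _ (by positivity)

/-- The time at the point `p` with colour `c`. -/
noncomputable def T (c : Fin 3) (p : EuclideanSpace ℝ (Fin 3)) : ℝ :=
  D.t0 + (c : ℕ) * (18 * (2 * ℓ + 1)) + dist L.dep p

end Data

/-- Lines of different axes never conflict. -/
lemma cross_sep {ℓ : ℕ} {L L' : TrainLine 3} (D : Data L ℓ) (D' : Data L' ℓ)
    (hax : D.i ≠ D'.i) (c c' : Fin 3) {p : EuclideanSpace ℝ (Fin 3)} (hp : p ∈ L.track)
    (hp' : p ∈ L'.track) : (ℓ : ℝ) ≤ |D.T c p - D'.T c' p| := by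
  obtain ⟨h1, -, -⟩ := (D.mem_track p).1 hp
  obtain ⟨h1', -, -⟩ := (D'.mem_track p).1 hp'
  let q : Fin 3 → ℤ := fun k => if k = D.i then D'.a k else D.a k
  have hq : ∀ k, p k = q k := by
    intro k
    by_cases hk : k = D.i
    · simp only [q, hk, if_true]
      exact h1' _ hax
    · simp only [q, hk, if_false]
      exact h1 _ hk
  have hqD : ∀ k, k ≠ D.i → q k = D.a k := by
    intro k hk
    simp only [q, hk, if_false]
  have hqD' : ∀ k, k ≠ D'.i → q k = D'.a k := by
    intro k hk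
    have : p k = D'.a k := h1' k hk
    rw [hq k] at this
    exact Int.cast_injective this
  have hne1 : ∀ i : Fin 3, i + 1 ≠ i := by decide
  have hne2 : ∀ i : Fin 3, i + 2 ≠ i := by decide
  have hPhi : Phi ℓ D.i D.s D.a = Phi ℓ D.i D.s q := by
    unfold Phi
    rw [hqD _ (hne1 _), hqD _ (hne2 _)]
  have hPhi' : Phi ℓ D'.i D'.s D'.a = Phi ℓ D'.i D'.s q := by
    unfold Phi
    rw [hqD' _ (hne1 _), hqD' _ (hne2 _)]
  obtain ⟨n, hn⟩ : ∃ n : ℤ, D.t0 = Phi ℓ D.i D.s q + sg D.s * D.a D.i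
      + 18 * (2 * ℓ + 1) * n := by
    refine ⟨-((Phi ℓ D.i D.s D.a + sg D.s * D.a D.i) / (18 * (2 * ℓ + 1))), ?_⟩
    have := Int.emod_add_mul_ediv (Phi ℓ D.i D.s D.a + sg D.s * D.a D.i) (18 * (2 * ℓ + 1))
    unfold Data.t0
    rw [← hPhi]
    linarith
  obtain ⟨n', hn'⟩ : ∃ n : ℤ, D'.t0 = Phi ℓ D'.i D'.s q + sg D'.s * D'.a D'.i
      + 18 * (2 * ℓ + 1) * n := by
    refine ⟨-((Phi ℓ D'.i D'.s D'.a + sg D'.s * D'.a D'.i) / (18 * (2 * ℓ + 1))), ?_⟩
    have := Int.emod_add_mul_ediv (Phi ℓ D'.i D'.s D'.a + sg D'.s * D'.a D'.i)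
      (18 * (2 * ℓ + 1))
    unfold Data.t0
    rw [← hPhi']
    linarith
  have hsep := Phi_sep ℓ D.s_lt D'.s_lt hax q
    (n - n' + ((c : ℕ) : ℤ) - ((c' : ℕ) : ℤ))
  have hT : D.T c p - D'.T c' p = (((Phi ℓ D.i D.s q + sg D.s * q D.i)
      - (Phi ℓ D'.i D'.s q + sg D'.s * q D'.i)
      + 18 * (2 * ℓ + 1) * (n - n' + ((c : ℕ) : ℤ) - ((c' : ℕ) : ℤ)) : ℤ) : ℝ) := by
    unfold Data.T
    rw [D.dist_dep hp, D'.dist_dep hp', hn, hn', hq D.i, hq D'.i]
    push_cast
    ring
  rw [hT]
  exact_mod_cast hsep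

/-- Two collinear lines of a network cannot have two lattice points in common. -/
lemma no_two_points {N : Set (TrainLine 3)} (hnet : IsNetwork N) {ℓ : ℕ} {L L' : TrainLine 3}
    (hL : L ∈ N) (hL' : L' ∈ N) (hne : L ≠ L') (D : Data L ℓ) (D' : Data L' ℓ)
    (hax : D.i = D'.i) (hco : ∀ j, j ≠ D.i → D.a j = D'.a j) {A B : ℤ} (hAB : A < B)
    (h1 : D.lo ≤ A) (h2 : B ≤ D.hi) (h3 : D'.lo ≤ A) (h4 : B ≤ D'.hi) : False := by
  let P : ℤ → EuclideanSpace ℝ (Fin 3) := fun m =>
    WithLp.toLp 2 (fun j => if j = D.i then (m : ℝ) else (D.a j : ℝ))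
  have hPi : ∀ m, P m D.i = m := by intro m; simp [P]
  have hPj : ∀ m j, j ≠ D.i → P m j = D.a j := by intro m j hj; simp [P, hj]
  have hmem : ∀ m, A ≤ m → m ≤ B → P m ∈ L.track ∩ L'.track := by
    intro m hm1 hm2
    constructor
    · rw [D.mem_track]
      refine ⟨fun j hj => hPj m j hj, ?_, ?_⟩
      · rw [hPi]; exact Int.cast_le.mpr (h1.trans hm1)
      · rw [hPi]; exact Int.cast_le.mpr (hm2.trans h2)
    · rw [D'.mem_track]
      refine ⟨fun j hj => ?_, ?_, ?_⟩
      · rw [← hax] at hj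
        rw [hPj m j hj, hco j hj]
      · rw [← hax, hPi]; exact Int.cast_le.mpr (h3.trans hm1)
      · rw [← hax, hPi]; exact Int.cast_le.mpr (hm2.trans h4)
  have hEq := hnet L hL L' hL' hne (hmem A le_rfl hAB.le) (hmem B hAB.le le_rfl)
  have : (A : ℝ) = B := by rw [← hPi A, ← hPi B, hEq]
  have : A = B := by exact_mod_cast this
  omega

/-- **Theorem.** For every train length `ℓ`, every regular three-dimensional train network
with train length `ℓ` has a collision-free schedule of delay at most `54 (2ℓ + 1)`. -/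
theorem result (ℓ : ℕ) (N : Set (TrainLine 3)) (hnet : IsNetwork N)
    (hreg : IsRegular N ℓ) :
    ∃ t : TrainLine 3 → ℝ, (∀ L ∈ N, 0 ≤ t L ∧ t L ≤ 54 * (2 * ℓ + 1)) ∧
      CollisionFree N t := by
  classical
  have hex : ∀ v : {L // L ∈ N}, Nonempty (Data v.1 ℓ) := fun v => exists_data hreg v.2
  let D : ∀ v : {L // L ∈ N}, Data v.1 ℓ := fun v => Classical.choice (hex v)
  let bad : {L // L ∈ N} → Fin 3 → {L // L ∈ N} → Fin 3 → Prop := fun v c u d =>
    v ≠ u ∧ (D v).i = (D u).i ∧ ∃ p ∈ v.1.track ∩ u.1.track, |(D v).T c p - (D u).T d p| < ℓ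
  let adj : {L // L ∈ N} → {L // L ∈ N} → Bool → Prop := fun v u b =>
    v ≠ u ∧ (D v).i = (D u).i ∧ (∀ j, j ≠ (D v).i → (D v).a j = (D u).a j) ∧
      (if b then (D u).lo = (D v).hi else (D u).hi = (D v).lo)
  obtain ⟨col, hcol⟩ : ∃ col : {L // L ∈ N} → Fin 3, ∀ v u, v ≠ u →
      ¬ bad v (col v) u (col u) := by
    refine exists_coloring bad adj ?_ ?_ ?_ ?_
    · rintro v c u d ⟨h1, h2, p, hp, h3⟩
      exact ⟨h1.symm, h2.symm, p, hp.symm, by rwa [abs_sub_comm]⟩
    · rintro v c u d ⟨h1, h2, p, ⟨hp, hp'⟩, -⟩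
      obtain ⟨k1, k2, k3⟩ := ((D v).mem_track p).1 hp
      obtain ⟨k1', k2', k3'⟩ := ((D u).mem_track p).1 hp'
      have hco : ∀ j, j ≠ (D v).i → (D v).a j = (D u).a j := by
        intro j hj
        have e1 := k1 j hj
        rw [k1' j (h2 ▸ hj)] at e1
        exact Int.cast_injective e1.symm
      rw [← h2] at k2' k3'
      have m1 : (D v).lo ≤ (D u).hi := by exact_mod_cast k2.trans k3'
      have m2 : (D u).lo ≤ (D v).hi := by exact_mod_cast k2'.trans k3
      have l1 := (D v).lo_lt_hi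
      have l2 := (D u).lo_lt_hi
      have hv : v.1 ≠ u.1 := fun h => h1 (Subtype.ext h)
      by_cases hAB : max (D v).lo (D u).lo < min (D v).hi (D u).hi
      · exact (no_two_points hnet v.2 u.2 hv (D v) (D u) h2 hco hAB (le_max_left _ _)
          (min_le_left _ _) (le_max_right _ _) (min_le_right _ _)).elim
      · by_cases hb : (D u).lo = (D v).hi
        · exact ⟨true, h1, h2, hco, by simpa using hb⟩
        · refine ⟨false, h1, h2, hco, ?_⟩
          simp only [Bool.false_eq_true, if_false]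
          omega
    · rintro v b u u' ⟨h1, h2, h3, h4⟩ ⟨h1', h2', h3', h4'⟩
      by_contra huu
      have hv : u.1 ≠ u'.1 := fun h => huu (Subtype.ext h)
      have hax : (D u).i = (D u').i := h2.symm.trans h2'
      have hco : ∀ j, j ≠ (D u).i → (D u).a j = (D u').a j := by
        intro j hj
        rw [← h2] at hj
        exact (h3 j hj).symm.trans (h3' j hj)
      have l1 := (D u).lo_lt_hi
      have l2 := (D u').lo_lt_hi
      cases b
      · simp only [Bool.false_eq_true, if_false] at h4 h4'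
        exact no_two_points hnet u.2 u'.2 hv (D u) (D u') hax hco
          (A := (D v).lo - 1) (B := (D v).lo) (by omega) (by omega) (by omega) (by omega)
          (by omega)
      · simp only [if_true] at h4 h4'
        exact no_two_points hnet u.2 u'.2 hv (D u) (D u') hax hco
          (A := (D v).hi) (B := (D v).hi + 1) (by omega) (by omega) (by omega) (by omega)
          (by omega)
    · rintro v u d c c' ⟨h1, h2, p, hp, h3⟩ ⟨-, -, p', hp', h3'⟩
      have hv : v.1 ≠ u.1 := fun h => h1 (Subtype.ext h)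
      have hpp : p = p' := hnet _ v.2 _ u.2 hv hp hp'
      subst hpp
      by_contra hcc
      have hcc' : ((c : ℕ) : ℤ) ≠ ((c' : ℕ) : ℤ) := by
        intro h
        exact hcc (Fin.ext (by exact_mod_cast h))
      have hlt : |((c : ℕ) : ℝ) * (18 * (2 * ℓ + 1)) - ((c' : ℕ) : ℝ) * (18 * (2 * ℓ + 1))|
          < 2 * ℓ := by
        unfold Data.T at h3 h3'
        rw [abs_lt] at h3 h3' ⊢
        constructor <;> linarith [h3.1, h3.2, h3'.1, h3'.2]
      have hge : (1 : ℝ) ≤ |((c : ℕ) : ℝ) - ((c' : ℕ) : ℝ)| := by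
        have h5 : (1 : ℤ) ≤ |((c : ℕ) : ℤ) - ((c' : ℕ) : ℤ)| :=
          Int.one_le_abs (sub_ne_zero.mpr hcc')
        exact_mod_cast h5
      have hpos : (0 : ℝ) ≤ 18 * (2 * ℓ + 1) := by positivity
      rw [← sub_mul, abs_mul, abs_of_nonneg hpos] at hlt
      have hℓ0 : (0 : ℝ) ≤ ℓ := by positivity
      nlinarith [mul_le_mul_of_nonneg_right hge hpos]
  refine ⟨fun L => if h : L ∈ N then
    ((D ⟨L, h⟩).t0 : ℝ) + ((col ⟨L, h⟩ : ℕ) : ℝ) * (18 * (2 * ℓ + 1)) else 0, ?_, ?_⟩
  · intro L hL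
    simp only [hL, dif_pos]
    have h1 : (0 : ℝ) ≤ ((D ⟨L, hL⟩).t0 : ℝ) := by exact_mod_cast (D ⟨L, hL⟩).t0_nonneg
    have h2 : ((D ⟨L, hL⟩).t0 : ℝ) ≤ 18 * (2 * ℓ + 1) := by
      exact_mod_cast (D ⟨L, hL⟩).t0_lt.le
    have h3 : (((col ⟨L, hL⟩ : Fin 3) : ℕ) : ℝ) ≤ 2 := by
      have : ((col ⟨L, hL⟩ : Fin 3) : ℕ) ≤ 2 := by omega
      exact_mod_cast this
    have hpos : (0 : ℝ) ≤ 18 * (2 * ℓ + 1) := by positivity
    constructor
    · positivity
    · nlinarith [mul_le_mul_of_nonneg_right h3 hpos]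
  · intro L hL L' hL' hne p hp
    simp only [hL, hL', dif_pos]
    set v : {L // L ∈ N} := ⟨L, hL⟩ with hvdef
    set u : {L // L ∈ N} := ⟨L', hL'⟩ with hudef
    have hvu : v ≠ u := fun h => hne (congrArg Subtype.val h)
    have hsep : (ℓ : ℝ) ≤ |(D v).T (col v) p - (D u).T (col u) p| := by
      by_cases hax : (D v).i = (D u).i
      · by_contra hlt
        exact hcol v u hvu ⟨hvu, hax, p, hp, not_le.1 hlt⟩
      · exact cross_sep (D v) (D u) hax _ _ hp.1 hp.2
    unfold TrainLine.occupied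
    have e1 : L.speed = 1 := (D v).speed_eq
    have e2 : L.len = ℓ := (D v).len_eq
    have e3 : L'.speed = 1 := (D u).speed_eq
    have e4 : L'.len = ℓ := (D u).len_eq
    rw [e1, e2, e3, e4, Set.Ioo_disjoint_Ioo]
    simp only [div_one]
    have hTv : (D v).T (col v) p = (D v).t0 + ((col v : ℕ) : ℝ) * (18 * (2 * ℓ + 1))
        + dist L.dep p := rfl
    have hTu : (D u).T (col u) p = (D u).t0 + ((col u : ℕ) : ℝ) * (18 * (2 * ℓ + 1))
        + dist L'.dep p := rfl
    rw [← hTv, ← hTu]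
    rcases le_abs.1 hsep with h | h
    · exact (min_le_right _ _).trans (le_trans (by linarith) (le_max_left _ _))
    · exact (min_le_left _ _).trans (le_trans (by linarith) (le_max_right _ _))

end Pool.Agent.Results.MP_03ede5_co.BoundedDelay
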